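import Pool.Agent.helper12.TY.Spec

set_option autoImplicit false

namespace Pool.Agent.TY

open Pool.Agent.helper58.DC Pool.Agent.DI Pool.Agent.GR Pool.Agent.OB Pool.Agent.TZ

theorem YUP (hUPV : Pool.Agent.TZ.UPV_stmt) (hYST : YST_stmt) : YUP_stmt := by
  intro c
  induction c with
  | zero =>
    intro p m _ M hS G _ _ hop χ g D hy
    have hn := hy.ne
    rw [pow_zero, pow_one] at hn
    have h1 := hUPV p m M hS G hop χ hy.irr g D hy.le hy.pgrp hy.card hy.om hy.el hy.mem hn
    rwa [zero_add, pow_one]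
  | succ c ih => exact hYST c ih

end Pool.Agent.TY
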